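import Mathlib
import Pool.Agent.W560.HP.Stm

/-!
# HP-SCH, the algebraic part
-/

set_option autoImplicit false

open Polynomial

namespace Pool.Agent.W253.HP

open W560.HP

/-- an integral element outside of the fraction field is a root of a polynomial without root in
the fraction field -/
theorem alg {A B F : Type} [CommRing A] [IsDomain A] [CommRing B] [IsDomain B] (φ : A →+* B)
    (b : B) (hint : φ.IsIntegralElem b)
    (hb : ∀ a d : A, d ≠ 0 → b * φ d ≠ φ a) [Field F] [Algebra A F] [IsFractionRing A F] :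
    ∃ Q : A[X], Q.eval₂ φ b = 0 ∧ ∀ x : F, (Q.map (algebraMap A F)).eval x ≠ 0 := by
  classical
  have hne : ∃ n, ∃ Q : A[X], Q ≠ 0 ∧ Q.eval₂ φ b = 0 ∧ Q.natDegree = n := by
    obtain ⟨Q, h1, h2⟩ := hint
    exact ⟨_, Q, h1.ne_zero, h2, rfl⟩
  obtain ⟨Q, hQ0, hQb, hQn⟩ := Nat.find_spec hne
  refine ⟨Q, hQb, fun x hx => ?_⟩
  have hinjF : Function.Injective (algebraMap A F) := IsFractionRing.injective A F
  obtain ⟨Q1, hQ1⟩ := Polynomial.dvd_iff_isRoot.2 hx
  obtain ⟨a, d, hd, rfl⟩ := IsFractionRing.div_surjective (A := A) x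
  have hd0 : d ≠ 0 := nonZeroDivisors.ne_zero hd
  have hdF : algebraMap A F d ≠ 0 := by
    rwa [Ne, map_eq_zero_iff _ hinjF]
  obtain ⟨c, hcM, hc⟩ := IsLocalization.integerNormalization_spec (nonZeroDivisors A) Q1
  generalize IsLocalization.integerNormalization (nonZeroDivisors A) Q1 = Q2 at hc
  have hc0 : c ≠ 0 := nonZeroDivisors.ne_zero hcM
  have hkey : C (c * d) * Q = (C d * X - C a) * Q2 := by
    refine map_injective _ hinjF ?_
    rw [Polynomial.map_mul, Polynomial.map_mul, hc, hQ1, Polynomial.map_sub, Polynomial.map_mul,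
      map_C, map_C, map_C, map_X, ← algebraMap_smul F c Q1, smul_eq_C_mul, map_mul, C_mul]
    have h1 : C (algebraMap A F a) = C (algebraMap A F d) * C (algebraMap A F a / algebraMap A F d) := by
      rw [← C_mul, mul_div_cancel₀ _ hdF]
    rw [h1]
    ring
  have hcd : c * d ≠ 0 := mul_ne_zero hc0 hd0
  have hQ20 : Q2 ≠ 0 := by
    rintro rfl
    rw [mul_zero] at hkey
    exact mul_ne_zero (C_ne_zero.2 hcd) hQ0 hkey
  have hQ2b : Q2.eval₂ φ b = 0 := by
    have h1 := congrArg (fun P : A[X] => P.eval₂ φ b) hkey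
    simp only [eval₂_mul, hQb, mul_zero, eval₂_sub, eval₂_C, eval₂_X] at h1
    have h2 : φ d * b - φ a ≠ 0 := by
      rw [sub_ne_zero, mul_comm]
      exact hb a d hd0
    exact (mul_eq_zero.1 h1.symm).resolve_left h2
  have hdeg : Q.natDegree = 1 + Q2.natDegree := by
    have h1 := congrArg natDegree hkey
    have h3 : (C d * X - C a : A[X]).natDegree = 1 := by
      rw [natDegree_sub_C]
      exact natDegree_C_mul_X d hd0
    have h4 : (C d * X - C a : A[X]) ≠ 0 := by
      intro h5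
      rw [h5, natDegree_zero] at h3
      exact zero_ne_one h3
    rw [natDegree_C_mul hcd, natDegree_mul h4 hQ20, h3] at h1
    exact h1
  have hmin := Nat.find_min' hne ⟨Q2, hQ20, hQ2b, rfl⟩
  omega

theorem core {k A K : Type} [Field k] [CommRing A] [Algebra k A] [Algebra.FiniteType k A]
    [Field K] [Algebra k K] (ψ : A →ₐ[k] K) (h : HPF k K)
    {q : ℕ} (Q : Fin q → A[X]) (hQ : ∀ j x, ((Q j).map (ψ : A →+* K)).eval x ≠ 0) :
    ∃ x : A →ₐ[k] k, ∀ j r, ((Q j).map (x : A →+* k)).eval r ≠ 0 := by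
  classical
  obtain ⟨s, hs⟩ := (Algebra.FiniteType.out : (⊤ : Subalgebra k A).FG)
  obtain ⟨B, φ, P', hS, hP', hφ⟩ := h q (fun j => (Q j).map (ψ : A →+* K)) hQ (s.image ψ)
  have hB : ∀ a : A, ψ a ∈ B := by
    intro a
    have h1 : (⊤ : Subalgebra k A).map ψ ≤ B := by
      rw [← hs, AlgHom.map_adjoin]
      refine Algebra.adjoin_le ?_
      rwa [Finset.coe_image] at hS
    exact h1 ⟨a, Algebra.mem_top, rfl⟩
  refine ⟨φ.comp (ψ.codRestrict B hB), fun j r => ?_⟩
  have h2 : P' j = (Q j).map ((ψ.codRestrict B hB : A →ₐ[k] B) : A →+* B) := by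
    have hinj : Function.Injective (algebraMap B K) := Subtype.val_injective
    refine map_injective _ hinj ?_
    rw [hP', Polynomial.map_map]
    rfl
  have h3 := hφ j r
  rw [h2, Polynomial.map_map] at h3
  exact h3

end Pool.Agent.W253.HP
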