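import Mathlib
import Pool.Agent.W560.HP.Stm2
import Pool.Agent.W253.HP.SchAlg

/-!
# HP-SCH: the scheme version of the Hilbert property
-/

set_option autoImplicit false

open Polynomial AlgebraicGeometry CategoryTheory

namespace Pool.Agent.W253.HP

open W560.HP

/-- the stalk at the generic point as a ring of fractions -/
theorem stalk_frac (X : Scheme.{0}) [IsIntegral X] (U : X.Opens) (hU : IsAffineOpen U) (x : X)
    (hx : x = genericPoint X) (hxU : x ∈ U) :
    (∀ a : Γ(X, U), a ≠ 0 → IsUnit (X.presheaf.germ U x hxU a)) ∧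
      ∀ r : X.presheaf.stalk x, ∃ a d : Γ(X, U), d ≠ 0 ∧
        r * X.presheaf.germ U x hxU d = X.presheaf.germ U x hxU a := by
  subst hx
  have : Nonempty U := ⟨⟨_, hxU⟩⟩
  have := functionField_isFractionRing_of_isAffineOpen X U hU
  constructor
  · intro a ha
    have h1 : algebraMap Γ(X, U) X.functionField a ≠ 0 := by
      rwa [Ne, map_eq_zero_iff _ (IsFractionRing.injective Γ(X, U) X.functionField)]
    exact isUnit_iff_ne_zero.2 h1
  · intro r
    obtain ⟨a, d, hd, h1⟩ := IsFractionRing.div_surjective (A := Γ(X, U)) (K := X.functionField) r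
    refine ⟨a, d, nonZeroDivisors.ne_zero hd, ?_⟩
    have h2 : algebraMap Γ(X, U) X.functionField d ≠ 0 := by
      rw [Ne, map_eq_zero_iff _ (IsFractionRing.injective Γ(X, U) X.functionField)]
      exact nonZeroDivisors.ne_zero hd
    rw [← h1]
    exact div_mul_cancel₀ _ h2

/-- a surjective morphism maps the generic point to the generic point -/
theorem generic_map {X Y : Scheme.{0}} [IsIntegral X] [IsIntegral Y] (π : Y ⟶ X) [Surjective π] :
    π (genericPoint Y) = genericPoint X := by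
  apply ((genericPoint_spec X).eq _).symm
  have h1 := (genericPoint_spec Y).image π.continuous
  rw [Set.image_univ, π.surjective.range_eq, closure_univ] at h1
  exact h1

/-- there is a function on the cover which is not a fraction of functions on the base -/
theorem exists_elem {X Y : Scheme.{0}} [IsIntegral X] [IsIntegral Y] (π : Y ⟶ X) [IsFinite π]
    [Surjective π] (U : X.Opens) (hU : IsAffineOpen U) (hne : Nonempty U)
    (hns : ¬ Function.Surjective (π.stalkMap (genericPoint Y)).hom) :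
    ∃ b : Γ(Y, π ⁻¹ᵁ U), ∀ a d : Γ(X, U), d ≠ 0 → b * (π.app U).hom d ≠ (π.app U).hom a := by
  by_contra hcon
  push Not at hcon
  refine hns ?_
  have hx := generic_map π
  have hgX : genericPoint X ∈ U :=
    ((genericPoint_spec X).mem_open_set_iff U.isOpen).mpr (by simpa using hne)
  have hxU : π (genericPoint Y) ∈ U := by rw [hx]; exact hgX
  have hyV : genericPoint Y ∈ π ⁻¹ᵁ U := hxU
  have hV : IsAffineOpen (π ⁻¹ᵁ U) := hU.preimage π
  have hneV : Nonempty (π ⁻¹ᵁ U) := ⟨⟨_, hyV⟩⟩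
  obtain ⟨hX1, hX2⟩ := stalk_frac X U hU (π (genericPoint Y)) hx hxU
  obtain ⟨hY1, hY2⟩ := stalk_frac Y (π ⁻¹ᵁ U) hV (genericPoint Y) rfl hyV
  have hg : ∀ a : Γ(X, U), (π.stalkMap (genericPoint Y)).hom
      (X.presheaf.germ U (π (genericPoint Y)) hxU a) =
      Y.presheaf.germ (π ⁻¹ᵁ U) (genericPoint Y) hyV ((π.app U).hom a) := fun a =>
    Scheme.Hom.germ_stalkMap_apply π U (genericPoint Y) hxU a
  have hinj : ∀ a : Γ(X, U), a ≠ 0 → (π.app U).hom a ≠ 0 := by
    intro a ha h0
    have h1 := (hX1 a ha).map (π.stalkMap (genericPoint Y)).hom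
    rw [hg, h0, map_zero] at h1
    exact not_isUnit_zero h1
  intro z
  obtain ⟨b, c, hc, hz⟩ := hY2 z
  obtain ⟨a, d, hd, h1⟩ := hcon b
  obtain ⟨a', d', hd', h2⟩ := hcon c
  have ha' : a' ≠ 0 := by
    rintro rfl
    rw [map_zero] at h2
    exact mul_ne_zero hc (hinj d' hd') h2
  obtain ⟨u, hu⟩ := (hX1 a' ha').mul (hX1 d hd)
  refine ⟨↑u⁻¹ * (X.presheaf.germ U (π (genericPoint Y)) hxU a *
    X.presheaf.germ U (π (genericPoint Y)) hxU d'), ?_⟩
  have h3 : IsUnit ((π.stalkMap (genericPoint Y)).hom (u : X.presheaf.stalk (π (genericPoint Y)))) :=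
    u.isUnit.map _
  refine h3.mul_left_cancel ?_
  rw [← map_mul, ← mul_assoc, Units.mul_inv, one_mul, map_mul, hu, map_mul, hg, hg, hg, hg,
    ← h1, ← h2, map_mul, map_mul, ← hz]
  ring

theorem sch : S_SCH := by
  intro k _ X _ f _ K _ _ e he hK q Y π hYi hfin hsurj hns
  rw [dense_iff_inter_open]
  rintro W hW ⟨w, hw⟩
  obtain ⟨U, hU, hwU, hUW⟩ := exists_isAffineOpen_mem_and_subset (X := X) (x := w)
    (U := ⟨W, hW⟩) hw
  have hneU : Nonempty U := ⟨⟨w, hwU⟩⟩
  have htop : U ≤ f ⁻¹ᵁ ⊤ := le_top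
  let ι0 : k →+* Γ(X, U) := (f.appLE ⊤ U htop).hom.comp
    (Scheme.ΓSpecIso (CommRingCat.of k)).inv.hom
  let _ : Algebra k Γ(X, U) := ι0.toAlgebra
  have hft : ι0.FiniteType := by
    have h1 : (f.appLE ⊤ U htop).hom.FiniteType :=
      f.finiteType_appLE (isAffineOpen_top _) hU htop
    refine h1.comp (RingHom.FiniteType.of_surjective _ ?_)
    exact (ConcreteCategory.bijective_of_isIso (Scheme.ΓSpecIso (CommRingCat.of k)).inv).2
  have : Algebra.FiniteType k Γ(X, U) := hft
  have := functionField_isFractionRing_of_isAffineOpen X U hU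
  let ψ0 : Γ(X, U) →+* K := (e : X.functionField →+* K).comp
    (algebraMap Γ(X, U) X.functionField)
  have hψ0 : ∀ a : k, ψ0 (ι0 a) = algebraMap k K a := by
    intro a
    rw [← he a]
    refine congrArg e ?_
    have hg := (genericPoint_spec X).mem_open_set_iff U.isOpen
    exact X.presheaf.germ_res_apply (homOfLE (le_top : U ≤ ⊤)) (genericPoint X)
      (hg.mpr (by simpa using hneU))
      (f.appTop.hom ((Scheme.ΓSpecIso (CommRingCat.of k)).inv.hom a))
  let ψ : Γ(X, U) →ₐ[k] K := { ψ0 with commutes' := hψ0 }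
  have hQ : ∀ i, ∃ (Q : Polynomial Γ(X, U)) (b : Γ(Y i, π i ⁻¹ᵁ U)),
      Q.eval₂ ((π i).app U).hom b = 0 ∧ ∀ x : K, (Q.map ψ0).eval x ≠ 0 := by
    intro i
    have := hYi i
    have := hfin i
    have := hsurj i
    obtain ⟨b, hb⟩ := exists_elem (π i) U hU hneU (hns i)
    have hint : ((π i).app U).hom.IsIntegralElem b :=
      ((π i).finite_app U hU).to_isIntegral b
    have hneV : Nonempty (π i ⁻¹ᵁ U) := by
      obtain ⟨y, hy⟩ := (π i).surjective w
      exact ⟨⟨y, show π i y ∈ U by rw [hy]; exact hwU⟩⟩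
    have hdom : IsDomain Γ(Y i, π i ⁻¹ᵁ U) := IsIntegral.component_integral _
    obtain ⟨Q, h1, h2⟩ := alg (F := X.functionField) ((π i).app U).hom b hint hb
    refine ⟨Q, b, h1, fun x hx => ?_⟩
    obtain ⟨y, rfl⟩ := e.surjective x
    refine h2 y ?_
    have h3 : Q.map ψ0 = (Q.map (algebraMap Γ(X, U) X.functionField)).map
        (e : X.functionField →+* K) := by
      rw [Polynomial.map_map]
    rw [h3] at hx
    have h4 := Polynomial.eval_map_apply (p := Q.map (algebraMap Γ(X, U) X.functionField))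
      (e : X.functionField →+* K) y
    have h5 : e ((Q.map (algebraMap Γ(X, U) X.functionField)).eval y) = 0 := h4.symm.trans hx
    exact (map_eq_zero_iff e e.injective).1 h5
  choose Q b hQb hQK using hQ
  obtain ⟨x, hx⟩ := core ψ hK Q hQK
  let xc : Γ(X, U) ⟶ CommRingCat.of k := CommRingCat.ofHom (x : Γ(X, U) →+* k)
  obtain ⟨p⟩ : Nonempty (Spec (CommRingCat.of k)) := inferInstance
  have hs : (Spec.map xc ≫ hU.fromSpec) p ∈ U := by
    have h1 : Set.range hU.fromSpec = (U : Set X) := hU.range_fromSpec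
    have h2 : hU.fromSpec (Spec.map xc p) ∈ (U : Set X) := by
      rw [← h1]
      exact ⟨_, rfl⟩
    rwa [Scheme.Hom.comp_apply]
  refine ⟨(Spec.map xc ≫ hU.fromSpec) p, hUW hs, Spec.map xc ≫ hU.fromSpec, ?_, ⟨p, rfl⟩, ?_⟩
  · rw [Category.assoc, ← IsAffineOpen.SpecMap_appLE_fromSpec f (isAffineOpen_top _) hU htop,
      IsAffineOpen.fromSpec_top, Scheme.isoSpec_Spec_inv, ← Spec.map_comp, ← Spec.map_comp]
    have h1 : ((Scheme.ΓSpecIso (CommRingCat.of k)).inv ≫ f.appLE ⊤ U htop) ≫ xc = 𝟙 _ := by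
      ext a
      exact x.commutes a
    rw [h1, Spec.map_id]
  · intro i t ht
    have := hfin i
    have hV : IsAffineOpen (π i ⁻¹ᵁ U) := hU.preimage (π i)
    have htV : ⊤ ≤ t ⁻¹ᵁ (π i ⁻¹ᵁ U) := by
      intro p' _
      have h1 : (t ≫ π i) p' ∈ U := by
        rw [ht]
        have h1 : Set.range hU.fromSpec = (U : Set X) := hU.range_fromSpec
        have h2 : hU.fromSpec (Spec.map xc p') ∈ (U : Set X) := by
          rw [← h1]
          exact ⟨_, rfl⟩
        rwa [Scheme.Hom.comp_apply]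
      rwa [Scheme.Hom.comp_apply] at h1
    have key1 := IsAffineOpen.SpecMap_appLE_fromSpec t hV (isAffineOpen_top _) htV
    rw [IsAffineOpen.fromSpec_top, Scheme.isoSpec_Spec_inv] at key1
    have key2 := IsAffineOpen.SpecMap_appLE_fromSpec (π i) hU hV le_rfl
    rw [← Scheme.Hom.app_eq_appLE] at key2
    let β : Γ(Y i, π i ⁻¹ᵁ U) ⟶ CommRingCat.of k :=
      t.appLE (π i ⁻¹ᵁ U) ⊤ htV ≫ (Scheme.ΓSpecIso (CommRingCat.of k)).hom
    have key3 : Spec.map β ≫ hV.fromSpec = t := by
      rw [Spec.map_comp, Category.assoc, key1, ← Category.assoc, ← Spec.map_comp,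
        Iso.inv_hom_id, Spec.map_id, Category.id_comp]
    have key4 : Spec.map ((π i).app U ≫ β) ≫ hU.fromSpec = Spec.map xc ≫ hU.fromSpec := by
      rw [Spec.map_comp, Category.assoc, key2, ← Category.assoc, key3, ht]
    have key5 : (π i).app U ≫ β = xc := Spec.map_injective ((cancel_mono _).1 key4)
    refine hx i (β.hom (b i)) ?_
    have key6 : (x : Γ(X, U) →+* k) = β.hom.comp ((π i).app U).hom := by
      have h1 := congrArg CommRingCat.Hom.hom key5
      exact h1.symm
    rw [key6, Polynomial.eval_map, ← Polynomial.hom_eval₂, hQb i, map_zero]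

end Pool.Agent.W253.HP
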